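import Pool.Agent.helper4.GA.Spec

/-!
# MP_3c0a64_an, row ga:CV1: few points lose much mass at one level
-/

set_option autoImplicit false

open Finset
open Pool.Agent.helper32.Cant

namespace Pool.Agent.GA

theorem CV1_nonneg (p : Prop) : 0 ≤ ind p := by
  unfold ind; split <;> norm_num

theorem CV1_le_one (p : Prop) : ind p ≤ 1 := by
  unfold ind; split <;> norm_num

theorem CV1_of {p : Prop} (h : p) : ind p = 1 := by
  unfold ind; simp [h]

theorem CV1_of_not {p : Prop} (h : ¬ p) : ind p = 0 := by
  unfold ind; simp [h]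

theorem CV1_mono {p q : Prop} (h : p → q) : ind p ≤ ind q := by
  by_cases hp : p
  · rw [CV1_of hp, CV1_of (h hp)]
  · rw [CV1_of_not hp]; exact CV1_nonneg _

/-- same class: close -/
theorem CV1_close (a b L : ℕ) (hL : 0 < L) (h : a / L = b / L) : |(a : ℤ) - b| ≤ L := by
  have h1 := Nat.div_add_mod a L
  have h2 := Nat.div_add_mod b L
  have h3 := Nat.mod_lt a hL
  have h4 := Nat.mod_lt b hL
  rw [h] at h1
  rw [abs_le]
  generalize L * (b / L) = q at *
  constructor <;> omega

/-- close: classes differ by at most three -/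
theorem CV1_class (a b L : ℕ) (hL : 0 < L) (h : |(a : ℤ) - b| ≤ 3 * L) :
    a / L ≤ b / L + 3 ∧ b / L ≤ a / L + 3 := by
  have h1 := abs_le.mp h
  have h3 : a ≤ b + 3 * L := by omega
  have h4 : b ≤ a + 3 * L := by omega
  constructor
  · calc a / L ≤ (b + 3 * L) / L := Nat.div_le_div_right h3
      _ = b / L + 3 := Nat.add_mul_div_right _ _ hL
  · calc b / L ≤ (a + 3 * L) / L := Nat.div_le_div_right h4
      _ = a / L + 3 := Nat.add_mul_div_right _ _ hL

theorem CV1 : CV1_stmt := by
  classical
  intro X _ n j R w K hw hK hj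
  set L : ℕ := 3 ^ (n - (j + 1)) with hLdef
  have hL : 0 < L := by positivity
  have h3L : 3 ^ (n - j) = 3 * L := by
    rw [hLdef, ← pow_succ', show n - (j + 1) + 1 = n - j from by omega]
  set kk : X → ℕ := fun x => R x / L with hkk
  set T : Finset ℕ := univ.image kk with hT
  let S : ℕ → ℝ := fun k => ∑ y, w y * ind (kk y ≤ k + 3 ∧ k ≤ kk y + 3)
  let P : X → Prop := fun x => K * mj n R w (j + 1) x < mj n R w j x
  have hS0 : ∀ k, 0 ≤ S k := fun k =>
    sum_nonneg fun y _ => mul_nonneg (hw y).le (CV1_nonneg _)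
  have hkey : ∀ k ∈ T, K * ∑ x with kk x = k, w x * ind (P x) ≤ S k := by
    intro k _
    by_cases hex : ∃ x0, kk x0 = k ∧ P x0
    · obtain ⟨x0, hx0, hP⟩ := hex
      have h1 : ∑ x with kk x = k, w x * ind (P x) ≤ mj n R w (j + 1) x0 := by
        unfold mj
        rw [sum_filter]
        apply sum_le_sum
        intro y _
        by_cases hy : kk y = k
        · rw [if_pos hy]
          apply mul_le_mul_of_nonneg_left _ (hw y).le
          have h2 : |(R y : ℤ) - R x0| ≤ 3 ^ (n - (j + 1)) := by
            have := CV1_close (R y) (R x0) L hL (hy.trans hx0.symm)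
            rw [hLdef] at this
            exact_mod_cast this
          rw [CV1_of h2]
          exact CV1_le_one _
        · rw [if_neg hy]
          exact mul_nonneg (hw y).le (CV1_nonneg _)
      have h3 : mj n R w j x0 ≤ S k := by
        unfold mj
        apply sum_le_sum
        intro y _
        apply mul_le_mul_of_nonneg_left _ (hw y).le
        apply CV1_mono
        intro h
        have h4 : |(R y : ℤ) - R x0| ≤ 3 * L := by
          rw [show (3 : ℤ) * L = ((3 * L : ℕ) : ℤ) from by push_cast; ring, ← h3L]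
          exact_mod_cast h
        have h5 := CV1_class (R y) (R x0) L hL h4
        rw [← hx0]
        exact h5
      have h6 : K * mj n R w (j + 1) x0 < mj n R w j x0 := hP
      nlinarith [mul_le_mul_of_nonneg_left h1 hK.le]
    · have h1 : ∑ x with kk x = k, w x * ind (P x) = 0 := by
        apply sum_eq_zero
        intro x hx
        rw [CV1_of_not (fun h => hex ⟨x, (mem_filter.mp hx).2, h⟩), mul_zero]
      rw [h1, mul_zero]
      exact hS0 k
  have hsum : ∑ x, w x * ind (P x) = ∑ k ∈ T, ∑ x with kk x = k, w x * ind (P x) := by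
    rw [sum_fiberwise_of_maps_to]
    intro x _
    exact mem_image_of_mem _ (mem_univ x)
  have htot : ∑ k ∈ T, S k ≤ 7 * ∑ x, w x := by
    change ∑ k ∈ T, ∑ y, w y * ind (kk y ≤ k + 3 ∧ k ≤ kk y + 3) ≤ _
    rw [sum_comm, mul_sum]
    apply sum_le_sum
    intro y _
    rw [← mul_sum, mul_comm]
    apply mul_le_mul_of_nonneg_right _ (hw y).le
    have h1 : ∑ k ∈ T, ind (kk y ≤ k + 3 ∧ k ≤ kk y + 3) =
        ((T.filter fun k => kk y ≤ k + 3 ∧ k ≤ kk y + 3).card : ℝ) := by
      rw [card_filter]
      push_cast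
      apply sum_congr rfl
      intro k _
      unfold ind
      congr
    rw [h1]
    have h2 : (T.filter fun k => kk y ≤ k + 3 ∧ k ≤ kk y + 3).card ≤
        (Icc (kk y - 3) (kk y + 3)).card := by
      apply card_le_card
      intro k hk
      have := (mem_filter.mp hk).2
      rw [mem_Icc]
      omega
    rw [Nat.card_Icc] at h2
    have h3 : (T.filter fun k => kk y ≤ k + 3 ∧ k ≤ kk y + 3).card ≤ 7 := by omega
    exact_mod_cast h3
  change ∑ x, w x * ind (P x) ≤ 7 / K * ∑ x, w x
  rw [div_mul_eq_mul_div, le_div_iff₀ hK, mul_comm, hsum, mul_sum]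
  exact (sum_le_sum hkey).trans htot

end Pool.Agent.GA
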